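import Mathlib

set_option autoImplicit false

open MeasureTheory
open scoped ENNReal

namespace Pool.Agent.Results.MP_a2bed5_pr.ConvexWorkloads

/-- The increasing rearrangement of a vector. -/
noncomputable def increasing {k : ℕ} (v : Fin k → ℝ) : Fin k → ℝ := v ∘ Tuple.sort v

/-- The Kiefer-Wolfowitz recursion. -/
noncomputable def kwStep {k : ℕ} (w : Fin k → ℝ) (s t : ℝ) : Fin k → ℝ :=
  increasing (fun i => max (w i + (if (i : ℕ) = 0 then s else 0) - t) 0)

lemma increasing_mono {k : ℕ} (v : Fin k → ℝ) : Monotone (increasing v) :=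
  Tuple.monotone_sort v

lemma increasing_comp_perm {k : ℕ} (v : Fin k → ℝ) (σ : Equiv.Perm (Fin k)) :
    increasing (v ∘ σ) = increasing v :=
  Tuple.comp_perm_comp_sort_eq_comp_sort

lemma card_increasing {k : ℕ} (v : Fin k → ℝ) (p : ℝ → Prop) [DecidablePred p] :
    (Finset.univ.filter (fun i => p (increasing v i))).card =
      (Finset.univ.filter (fun i => p (v i))).card := by
  apply Finset.card_bij (fun i _ => Tuple.sort v i)
  · intro i hi
    rw [Finset.mem_filter] at hi ⊢
    exact ⟨Finset.mem_univ _, hi.2⟩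
  · intro a _ b _ h
    exact (Tuple.sort v).injective h
  · intro b hb
    refine ⟨(Tuple.sort v).symm b, ?_, by simp⟩
    rw [Finset.mem_filter] at hb ⊢
    refine ⟨Finset.mem_univ _, ?_⟩
    unfold increasing
    simpa using hb.2

lemma increasing_le_iff {k : ℕ} (v : Fin k → ℝ) (j : Fin k) (a : ℝ) :
    increasing v j ≤ a ↔ (j : ℕ) < (Finset.univ.filter (fun i => v i ≤ a)).card := by
  rw [← card_increasing v (fun x => x ≤ a)]
  exact (Tuple.lt_card_le_iff_apply_le_of_monotone (increasing_mono v)).symm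

lemma measurable_count {k : ℕ} (a : ℝ) :
    Measurable (fun v : Fin k → ℝ => (Finset.univ.filter (fun i => v i ≤ a)).card) := by
  simp_rw [Finset.card_filter]
  apply Finset.measurable_sum
  intro i _
  apply Measurable.ite _ measurable_const measurable_const
  exact measurableSet_le (measurable_pi_apply i) measurable_const

lemma measurable_increasing {k : ℕ} : Measurable (increasing : (Fin k → ℝ) → (Fin k → ℝ)) := by
  rw [measurable_pi_iff]
  intro j
  apply measurable_of_Iic
  intro a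
  have : (fun v : Fin k → ℝ => increasing v j) ⁻¹' Set.Iic a =
      (fun v : Fin k → ℝ => (Finset.univ.filter (fun i => v i ≤ a)).card) ⁻¹' Set.Ioi (j : ℕ) := by
    ext v
    simp only [Set.mem_preimage, Set.mem_Iic, Set.mem_Ioi]
    exact increasing_le_iff v j a
  rw [this]
  exact measurable_count a measurableSet_Ioi

lemma measurable_kwStep {k : ℕ} :
    Measurable (fun p : (Fin k → ℝ) × ℝ × ℝ => kwStep p.1 p.2.1 p.2.2) := by
  unfold kwStep
  apply measurable_increasing.comp
  rw [measurable_pi_iff]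
  intro i
  apply Measurable.max _ measurable_const
  apply Measurable.sub _ (measurable_snd.comp measurable_snd)
  apply Measurable.add ((measurable_pi_apply i).comp measurable_fst)
  split_ifs
  · exact measurable_fst.comp measurable_snd
  · exact measurable_const

/-- If a vector is dominated by a permuted monotone vector, so is its increasing
rearrangement. -/
lemma increasing_le {k : ℕ} (v b : Fin k → ℝ) (hb : Monotone b) (τ : Equiv.Perm (Fin k))
    (h : ∀ i, v i ≤ b (τ i)) (j : Fin k) : increasing v j ≤ b j := by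
  rw [increasing_le_iff]
  have h1 : (Finset.univ.filter (fun i => i ≤ j)).card ≤
      (Finset.univ.filter (fun i => v i ≤ b j)).card := by
    apply Finset.card_le_card_of_injOn (fun i => τ.symm i)
    · intro i hi
      rw [Finset.mem_coe, Finset.mem_filter] at hi ⊢
      refine ⟨Finset.mem_univ _, ?_⟩
      replace hi := hi.2
      have := h (τ.symm i)
      simp only [Equiv.apply_symm_apply] at this
      exact this.trans (hb hi)
    · intro a _ b _ hab
      exact τ.symm.injective hab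
  have h2 : (Finset.univ.filter (fun i => i ≤ j)).card = (j : ℕ) + 1 := by
    have : Finset.univ.filter (fun i => i ≤ j) = Finset.Iic j := by
      ext x; simp
    rw [this, Fin.card_Iic]
  omega

/-- `π` is a stationary law of the ordered workload vector of the `k`-server queue with
interarrival law `μT` and service law `μS`. -/
structure IsStationary (k : ℕ) (μT μS : Measure ℝ) (π : Measure (Fin k → ℝ)) : Prop where
  prob : IsProbabilityMeasure π
  ordered : ∀ᵐ w ∂π, Monotone w ∧ ∀ i, 0 ≤ w i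
  invariant :
    Measure.map (fun p : (Fin k → ℝ) × ℝ × ℝ => kwStep p.1 p.2.1 p.2.2) (π.prod (μS.prod μT)) = π

/-! ### The number of servers still busy at a later time -/

/-- Number of coordinates above `y`. -/
noncomputable def above {m : ℕ} (w : Fin (m + 1) → ℝ) (y : ℝ) : ℕ :=
  (Finset.univ.filter (fun i => y < w i)).card

lemma above_eq_sum {m : ℕ} (w : Fin (m + 1) → ℝ) (y : ℝ) :
    above w y = (if y < w 0 then 1 else 0) + ∑ i : Fin m, if y < w i.succ then 1 else 0 := by
  unfold above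
  rw [Finset.card_filter, Fin.sum_univ_succ]

lemma above_kwStep {m : ℕ} (w : Fin (m + 1) → ℝ) (s t x : ℝ) (hx : 0 ≤ x) (hs : 0 ≤ s) :
    above (kwStep w s t) x = above w (x + t) +
      (if w 0 ≤ x + t ∧ x + t < w 0 + s then 1 else 0) := by
  have h1 : above (kwStep w s t) x =
      (Finset.univ.filter (fun i : Fin (m + 1) =>
        x < max (w i + (if (i : ℕ) = 0 then s else 0) - t) 0)).card := by
    unfold above kwStep
    exact card_increasing _ (fun z => x < z)
  rw [h1, above_eq_sum, Finset.card_filter, Fin.sum_univ_succ]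
  have h2 : ∀ i : Fin m, (if x < max (w i.succ + (if ((i.succ : Fin (m + 1)) : ℕ) = 0 then s else 0) - t) 0
      then 1 else 0) = (if x + t < w i.succ then 1 else 0 : ℕ) := by
    intro i
    have : (x < max (w i.succ + (if ((i.succ : Fin (m + 1)) : ℕ) = 0 then s else 0) - t) 0) ↔
        x + t < w i.succ := by
      rw [if_neg (by simp), lt_max_iff]
      constructor
      · rintro (h | h) <;> linarith
      · intro h; left; linarith
    simp only [this]
  simp only [h2]
  have h3 : (x < max (w 0 + (if ((0 : Fin (m + 1)) : ℕ) = 0 then s else 0) - t) 0) ↔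
      x + t < w 0 + s := by
    rw [if_pos (by simp), lt_max_iff]
    constructor
    · rintro (h | h) <;> linarith
    · intro h; left; linarith
  simp only [h3]
  by_cases a : x + t < w 0
  · have b : x + t < w 0 + s := by linarith
    have c : ¬ (w 0 ≤ x + t ∧ x + t < w 0 + s) := fun h => absurd h.1 (not_le.2 a)
    rw [if_pos a, if_pos b, if_neg c]
    ring
  · by_cases b : x + t < w 0 + s
    · have c : (w 0 ≤ x + t ∧ x + t < w 0 + s) := ⟨not_lt.1 a, b⟩
      rw [if_neg a, if_pos b, if_pos c]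
      ring
    · have c : ¬ (w 0 ≤ x + t ∧ x + t < w 0 + s) := fun h => b h.2
      rw [if_neg a, if_neg b, if_neg c]
      ring

lemma le_of_above_lt {m : ℕ} (w : Fin (m + 1) → ℝ) (hw : Monotone w) (y : ℝ)
    (h : above w y < m + 1) : w 0 ≤ y := by
  by_contra hlt
  push Not at hlt
  have : Finset.univ.filter (fun i => y < w i) = Finset.univ := by
    ext i
    simp only [Finset.mem_filter, Finset.mem_univ, true_and, iff_true]
    exact lt_of_lt_of_le hlt (hw (Fin.zero_le i))
  unfold above at h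
  rw [this] at h
  simp at h

lemma measurable_above {m : ℕ} :
    Measurable (fun q : (Fin (m + 1) → ℝ) × ℝ => above q.1 q.2) := by
  unfold above
  simp_rw [Finset.card_filter]
  apply Finset.measurable_sum
  intro i _
  apply Measurable.ite _ measurable_const measurable_const
  exact measurableSet_lt measurable_snd ((measurable_pi_apply i).comp measurable_fst)

/-- The two transfer operators: the tagged customer has left (`QD`) or is present (`QP`) at
time `y`. -/
noncomputable def QD {m : ℕ} (ν : Measure (ℝ × ℝ)) (f : (Fin (m + 1) → ℝ) × ℝ → ℝ≥0∞)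
    (q : (Fin (m + 1) → ℝ) × ℝ) : ℝ≥0∞ :=
  ∫⁻ p, (if q.1 0 + p.1 ≤ q.2 then f (kwStep q.1 p.1 p.2, q.2 - p.2) else 0) ∂ν

noncomputable def QP {m : ℕ} (ν : Measure (ℝ × ℝ)) (f : (Fin (m + 1) → ℝ) × ℝ → ℝ≥0∞)
    (q : (Fin (m + 1) → ℝ) × ℝ) : ℝ≥0∞ :=
  ∫⁻ p, (if q.2 < q.1 0 + p.1 then f (kwStep q.1 p.1 p.2, q.2 - p.2) else 0) ∂ν

lemma measurable_transfer {m : ℕ} (f : (Fin (m + 1) → ℝ) × ℝ → ℝ≥0∞) (hf : Measurable f) :
    Measurable (fun r : ((Fin (m + 1) → ℝ) × ℝ) × (ℝ × ℝ) =>
      f (kwStep r.1.1 r.2.1 r.2.2, r.1.2 - r.2.2)) := by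
  apply hf.comp
  apply Measurable.prodMk
  · exact measurable_kwStep.comp ((measurable_fst.comp measurable_fst).prodMk measurable_snd)
  · exact (measurable_snd.comp measurable_fst).sub (measurable_snd.comp measurable_snd)

lemma measurable_QDint {m : ℕ} (f : (Fin (m + 1) → ℝ) × ℝ → ℝ≥0∞) (hf : Measurable f) :
    Measurable (fun r : ((Fin (m + 1) → ℝ) × ℝ) × (ℝ × ℝ) =>
      if r.1.1 0 + r.2.1 ≤ r.1.2 then f (kwStep r.1.1 r.2.1 r.2.2, r.1.2 - r.2.2) else 0) := by
  apply Measurable.ite _ (measurable_transfer f hf) measurable_const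
  exact measurableSet_le (((measurable_pi_apply 0).comp (measurable_fst.comp measurable_fst)).add
    (measurable_fst.comp measurable_snd)) (measurable_snd.comp measurable_fst)

lemma measurable_QPint {m : ℕ} (f : (Fin (m + 1) → ℝ) × ℝ → ℝ≥0∞) (hf : Measurable f) :
    Measurable (fun r : ((Fin (m + 1) → ℝ) × ℝ) × (ℝ × ℝ) =>
      if r.1.2 < r.1.1 0 + r.2.1 then f (kwStep r.1.1 r.2.1 r.2.2, r.1.2 - r.2.2) else 0) := by
  apply Measurable.ite _ (measurable_transfer f hf) measurable_const
  exact measurableSet_lt (measurable_snd.comp measurable_fst)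
    (((measurable_pi_apply 0).comp (measurable_fst.comp measurable_fst)).add
    (measurable_fst.comp measurable_snd))

lemma measurable_QD {m : ℕ} (ν : Measure (ℝ × ℝ)) [SFinite ν]
    (f : (Fin (m + 1) → ℝ) × ℝ → ℝ≥0∞) (hf : Measurable f) : Measurable (QD ν f) :=
  (measurable_QDint f hf).lintegral_prod_right'

lemma measurable_QP {m : ℕ} (ν : Measure (ℝ × ℝ)) [SFinite ν]
    (f : (Fin (m + 1) → ℝ) × ℝ → ℝ≥0∞) (hf : Measurable f) : Measurable (QP ν f) :=
  (measurable_QPint f hf).lintegral_prod_right'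

lemma lintegral_stationary {m : ℕ} {μT μS : Measure ℝ} [IsProbabilityMeasure μT]
    [IsProbabilityMeasure μS] {π : Measure (Fin (m + 1) → ℝ)}
    (hπ : IsStationary (m + 1) μT μS π) (g : (Fin (m + 1) → ℝ) → ℝ≥0∞) (hg : Measurable g) :
    ∫⁻ w, g w ∂π = ∫⁻ w, ∫⁻ p, g (kwStep w p.1 p.2) ∂(μS.prod μT) ∂π := by
  have := hπ.prob
  conv_lhs => rw [← hπ.invariant]
  rw [lintegral_map hg measurable_kwStep]
  rw [lintegral_prod]
  exact (hg.comp measurable_kwStep).aemeasurable

/-- One step of the backward decomposition. -/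
lemma step_identity {m : ℕ} {μT μS : Measure ℝ} [IsProbabilityMeasure μT]
    [IsProbabilityMeasure μS] {π : Measure (Fin (m + 1) → ℝ)}
    (hπ : IsStationary (m + 1) μT μS π) (hS : ∀ᵐ s ∂μS, 0 ≤ s) (j : ℕ) (hj : j + 1 < m + 1)
    (f : (Fin (m + 1) → ℝ) × ℝ → ℝ≥0∞) (hf : Measurable f)
    (hf0 : ∀ w y, y < 0 → f (w, y) = 0) :
    ∫⁻ w, ∫⁻ x, (if above w x = j + 1 then f (w, x) else 0) ∂volume ∂π =
      (∫⁻ w, ∫⁻ y, (if above w y = j then QP (μS.prod μT) f (w, y) else 0) ∂volume ∂π) +
      ∫⁻ w, ∫⁻ y, (if above w y = j + 1 then QD (μS.prod μT) f (w, y) else 0) ∂volume ∂π := by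
  have := hπ.prob
  set ν := μS.prod μT with hν
  have hνS : ∀ᵐ p ∂ν, 0 ≤ p.1 := (Measure.quasiMeasurePreserving_fst (μ := μS) (ν := μT)).ae hS
  have mcond : ∀ i : ℕ, MeasurableSet {q : (Fin (m + 1) → ℝ) × ℝ | above q.1 q.2 = i} := by
    intro i
    exact measurable_above (measurableSet_singleton i)
  have mh : ∀ (i : ℕ) (F : (Fin (m + 1) → ℝ) × ℝ → ℝ≥0∞), Measurable F →
      Measurable (fun q : (Fin (m + 1) → ℝ) × ℝ => if above q.1 q.2 = i then F q else 0) := by
    intro i F hF
    exact Measurable.ite (mcond i) hF measurable_const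
  have e1 := lintegral_stationary hπ
    (fun w => ∫⁻ x, (if above w x = j + 1 then f (w, x) else 0) ∂volume)
    ((mh (j + 1) f hf).lintegral_prod_right')
  rw [e1, ← lintegral_add_left]
  swap
  · exact (mh j (QP ν f) (measurable_QP ν f hf)).lintegral_prod_right'
  apply lintegral_congr_ae
  filter_upwards [hπ.ordered] with w hw
  -- translate in the inner integral
  have e2 : ∀ p : ℝ × ℝ, ∫⁻ x, (if above (kwStep w p.1 p.2) x = j + 1 then
      f (kwStep w p.1 p.2, x) else 0) ∂volume =
      ∫⁻ y, (if above (kwStep w p.1 p.2) (y - p.2) = j + 1 then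
      f (kwStep w p.1 p.2, y - p.2) else 0) ∂volume := by
    intro p
    exact (lintegral_sub_right_eq_self (fun x => (if above (kwStep w p.1 p.2) x = j + 1 then
      f (kwStep w p.1 p.2, x) else 0)) p.2).symm
  simp_rw [e2]
  -- split the indicator
  have e3 : ∀ p : ℝ × ℝ, 0 ≤ p.1 → ∀ y : ℝ, (if above (kwStep w p.1 p.2) (y - p.2) = j + 1 then
      f (kwStep w p.1 p.2, y - p.2) else 0) =
      (if above w y = j then (if y < w 0 + p.1 then f (kwStep w p.1 p.2, y - p.2) else 0) else 0) +
      (if above w y = j + 1 then (if w 0 + p.1 ≤ y then f (kwStep w p.1 p.2, y - p.2) else 0)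
        else 0) := by
    intro p hp y
    rcases lt_or_ge (y - p.2) 0 with hy | hy
    · rw [hf0 _ _ hy]
      simp
    · rw [above_kwStep w p.1 p.2 (y - p.2) hy hp]
      have : y - p.2 + p.2 = y := by ring
      rw [this]
      by_cases a : above w y = j
      · have w0 : w 0 ≤ y := le_of_above_lt w hw.1 y (by omega)
        rw [if_pos a]
        have c : above w y ≠ j + 1 := by omega
        rw [if_neg c, add_zero]
        by_cases b : y < w 0 + p.1
        · have hy1 : w 0 ≤ y ∧ y < w 0 + p.1 := ⟨w0, b⟩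
          rw [if_pos hy1, if_pos b, if_pos (by omega)]
        · have hn : ¬ (w 0 ≤ y ∧ y < w 0 + p.1) := fun h => b h.2
          rw [if_neg hn, if_neg b, if_neg (by omega)]
      · rw [if_neg a, zero_add]
        by_cases c : above w y = j + 1
        · have w0 : w 0 ≤ y := le_of_above_lt w hw.1 y (by omega)
          rw [if_pos c]
          by_cases b : w 0 + p.1 ≤ y
          · have hn : ¬ (w 0 ≤ y ∧ y < w 0 + p.1) := fun h => absurd h.2 (not_lt.2 b)
            rw [if_neg hn, if_pos b, if_pos (by omega)]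
          · push Not at b
            have hy1 : w 0 ≤ y ∧ y < w 0 + p.1 := ⟨w0, b⟩
            rw [if_pos hy1, if_neg (not_le.2 b), if_neg (by omega)]
        · rw [if_neg c]
          split_ifs with h1 h2 <;> first | rfl | omega
  have e4 : ∫⁻ p, ∫⁻ y, (if above (kwStep w p.1 p.2) (y - p.2) = j + 1 then
      f (kwStep w p.1 p.2, y - p.2) else 0) ∂volume ∂ν =
      ∫⁻ p, ∫⁻ y, ((if above w y = j then
        (if y < w 0 + p.1 then f (kwStep w p.1 p.2, y - p.2) else 0) else 0) +
      (if above w y = j + 1 then (if w 0 + p.1 ≤ y then f (kwStep w p.1 p.2, y - p.2) else 0)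
        else 0)) ∂volume ∂ν := by
    apply lintegral_congr_ae
    filter_upwards [hνS] with p hp
    apply lintegral_congr
    intro y
    exact e3 p hp y
  rw [e4]
  have mP : Measurable (fun r : (ℝ × ℝ) × ℝ => (if above w r.2 = j then
        (if r.2 < w 0 + r.1.1 then f (kwStep w r.1.1 r.1.2, r.2 - r.1.2) else 0) else 0)) := by
    apply Measurable.ite
    · exact (measurable_above.comp (measurable_const.prodMk measurable_snd))
        (measurableSet_singleton j)
    · exact (measurable_QPint f hf).comp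
        ((measurable_const.prodMk measurable_snd).prodMk measurable_fst)
    · exact measurable_const
  have mD : Measurable (fun r : (ℝ × ℝ) × ℝ => (if above w r.2 = j + 1 then
        (if w 0 + r.1.1 ≤ r.2 then f (kwStep w r.1.1 r.1.2, r.2 - r.1.2) else 0) else 0)) := by
    apply Measurable.ite
    · exact (measurable_above.comp (measurable_const.prodMk measurable_snd))
        (measurableSet_singleton (j + 1))
    · exact (measurable_QDint f hf).comp
        ((measurable_const.prodMk measurable_snd).prodMk measurable_fst)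
    · exact measurable_const
  rw [lintegral_lintegral_swap (mP.add mD).aemeasurable]
  have e5 : ∀ y : ℝ, ∫⁻ p, ((if above w y = j then
        (if y < w 0 + p.1 then f (kwStep w p.1 p.2, y - p.2) else 0) else 0) +
      (if above w y = j + 1 then (if w 0 + p.1 ≤ y then f (kwStep w p.1 p.2, y - p.2) else 0)
        else 0)) ∂ν = (if above w y = j then QP ν f (w, y) else 0) +
        (if above w y = j + 1 then QD ν f (w, y) else 0) := by
    intro y
    rw [lintegral_add_left]
    · congr 1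
      · split_ifs with h
        · rfl
        · simp
      · split_ifs with h
        · rfl
        · simp
    · exact mP.comp (measurable_id.prodMk measurable_const)
  simp_rw [e5]
  rw [lintegral_add_left]
  exact (mh j (QP ν f) (measurable_QP ν f hf)).comp (measurable_const.prodMk measurable_id)

/-- The iterates of `QD` on the indicator of `[0, X]`. -/
noncomputable def fseq {m : ℕ} (ν : Measure (ℝ × ℝ)) (X : ℝ) :
    ℕ → ((Fin (m + 1) → ℝ) × ℝ) → ℝ≥0∞
  | 0 => fun q => if 0 ≤ q.2 ∧ q.2 ≤ X then 1 else 0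
  | n + 1 => QD ν (fseq ν X n)

lemma measurable_fseq {m : ℕ} (ν : Measure (ℝ × ℝ)) [SFinite ν] (X : ℝ) (n : ℕ) :
    Measurable (fseq (m := m) ν X n) := by
  induction n with
  | zero =>
    apply Measurable.ite _ measurable_const measurable_const
    exact (measurableSet_le measurable_const measurable_snd).inter
      (measurableSet_le measurable_snd measurable_const)
  | succ n ih => exact measurable_QD ν _ ih

lemma fseq_neg {m : ℕ} (ν : Measure (ℝ × ℝ)) (X : ℝ) (hν : ∀ᵐ p ∂ν, 0 ≤ p.2) (n : ℕ)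
    (w : Fin (m + 1) → ℝ) (y : ℝ) (hy : y < 0) : fseq ν X n (w, y) = 0 := by
  induction n generalizing w y with
  | zero =>
    simp only [fseq]
    rw [if_neg (fun h => absurd h.1 (not_le.2 hy))]
  | succ n ih =>
    simp only [fseq, QD]
    rw [lintegral_congr_ae (g := fun _ => 0)]
    · simp
    · filter_upwards [hν] with p hp
      rw [ih _ _ (by linarith)]
      simp

lemma kwStep_zero_ge {m : ℕ} (w : Fin (m + 1) → ℝ) (hw : Monotone w) (s t : ℝ) (hs : 0 ≤ s) :
    w 0 - t ≤ kwStep w s t 0 := by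
  unfold kwStep increasing
  simp only [Function.comp_apply]
  set i := Tuple.sort (fun i : Fin (m + 1) => max (w i + (if (i : ℕ) = 0 then s else 0) - t) 0) 0
  refine le_trans ?_ (le_max_left _ _)
  have h1 := hw (Fin.zero_le i)
  have h2 : 0 ≤ (if (i : ℕ) = 0 then s else 0) := by split_ifs <;> [exact hs; exact le_rfl]
  linarith

lemma kwStep_mono {m : ℕ} (w : Fin (m + 1) → ℝ) (s t : ℝ) : Monotone (kwStep w s t) :=
  increasing_mono _

lemma lintegral_fst {μT μS : Measure ℝ} [IsProbabilityMeasure μT] [IsProbabilityMeasure μS]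
    (g : ℝ → ℝ≥0∞) (hg : Measurable g) :
    ∫⁻ p, g p.1 ∂(μS.prod μT) = ∫⁻ s, g s ∂μS := by
  rw [lintegral_prod (fun p : ℝ × ℝ => g p.1) (hg.comp measurable_fst).aemeasurable]
  simp

lemma lintegral_snd {μT μS : Measure ℝ} [IsProbabilityMeasure μT] [IsProbabilityMeasure μS]
    (g : ℝ → ℝ≥0∞) (hg : Measurable g) :
    ∫⁻ p, g p.2 ∂(μS.prod μT) = ∫⁻ t, g t ∂μT := by
  rw [lintegral_prod (fun p : ℝ × ℝ => g p.2) (hg.comp measurable_snd).aemeasurable]
  simp

lemma psi_bound {m : ℕ} {μT μS : Measure ℝ} [IsProbabilityMeasure μT] [IsProbabilityMeasure μS]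
    (hS : ∀ᵐ s ∂μS, 0 ≤ s) (X : ℝ) (n : ℕ) (w : Fin (m + 1) → ℝ) (hw : Monotone w) (y : ℝ) :
    ∑ i ∈ Finset.range n, fseq (μS.prod μT) X i (w, y) ≤ (μS (Set.Ioi (y - w 0)))⁻¹ := by
  induction n generalizing w y with
  | zero => simp
  | succ n ih =>
    rw [Finset.sum_range_succ']
    have hν : ∀ᵐ p ∂(μS.prod μT), 0 ≤ p.1 :=
      (Measure.quasiMeasurePreserving_fst (μ := μS) (ν := μT)).ae hS
    set a := μS (Set.Ioi (y - w 0)) with ha
    have e1 : ∑ i ∈ Finset.range n, fseq (μS.prod μT) X (i + 1) (w, y) ≤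
        a⁻¹ * μS (Set.Iic (y - w 0)) := by
      have e2 : ∑ i ∈ Finset.range n, fseq (μS.prod μT) X (i + 1) (w, y) =
          ∫⁻ p, ∑ i ∈ Finset.range n, (if w 0 + p.1 ≤ y then
            fseq (μS.prod μT) X i (kwStep w p.1 p.2, y - p.2) else 0) ∂(μS.prod μT) := by
        rw [lintegral_finsetSum]
        · rfl
        · intro i _
          exact (measurable_QDint _ (measurable_fseq (μS.prod μT) X i)).comp
            ((measurable_const : Measurable (fun _ : ℝ × ℝ => (w, y))).prodMk measurable_id)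
      rw [e2]
      have e3 : ∫⁻ p, ∑ i ∈ Finset.range n, (if w 0 + p.1 ≤ y then
            fseq (μS.prod μT) X i (kwStep w p.1 p.2, y - p.2) else 0) ∂(μS.prod μT) ≤
          ∫⁻ p, (if w 0 + p.1 ≤ y then a⁻¹ else 0) ∂(μS.prod μT) := by
        apply lintegral_mono_ae
        filter_upwards [hν] with p hp
        by_cases h : w 0 + p.1 ≤ y
        · simp only [if_pos h]
          refine (ih _ (kwStep_mono w p.1 p.2) _).trans ?_
          apply ENNReal.inv_le_inv.2
          apply measure_mono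
          apply Set.Ioi_subset_Ioi
          have := kwStep_zero_ge w hw p.1 p.2 hp
          linarith
        · simp [if_neg h]
      refine e3.trans ?_
      rw [lintegral_fst (fun s => if w 0 + s ≤ y then a⁻¹ else 0)]
      · have : (fun s : ℝ => if w 0 + s ≤ y then a⁻¹ else 0) =
            Set.indicator (Set.Iic (y - w 0)) (fun _ => a⁻¹) := by
          funext s
          rw [Set.indicator_apply]
          have : (w 0 + s ≤ y) ↔ s ∈ Set.Iic (y - w 0) := by
            rw [Set.mem_Iic]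
            constructor <;> intro h <;> linarith
          simp only [this]
        rw [this, lintegral_indicator measurableSet_Iic, setLIntegral_const]
      · apply Measurable.ite _ measurable_const measurable_const
        exact measurableSet_le (measurable_const.add measurable_id) measurable_const
    have e4 : fseq (μS.prod μT) X 0 (w, y) ≤ 1 := by
      simp only [fseq]
      split_ifs <;> simp
    rcases eq_or_ne a 0 with h0 | h0
    · rw [h0, ENNReal.inv_zero]
      exact le_top
    · have hatop : a ≠ ⊤ := measure_ne_top _ _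
      have hsum : a + μS (Set.Iic (y - w 0)) = 1 := by
        have hc : Set.Iic (y - w 0) = (Set.Ioi (y - w 0))ᶜ := by
          rw [Set.compl_Ioi]
        rw [ha, hc]
        exact prob_add_prob_compl measurableSet_Ioi
      calc _ ≤ a⁻¹ * μS (Set.Iic (y - w 0)) + 1 := add_le_add e1 e4
        _ = a⁻¹ * μS (Set.Iic (y - w 0)) + a⁻¹ * a := by
          rw [ENNReal.inv_mul_cancel h0 hatop]
        _ = a⁻¹ * (a + μS (Set.Iic (y - w 0))) := by ring
        _ = a⁻¹ := by rw [hsum, mul_one]

lemma QP_bound {m : ℕ} {μT μS : Measure ℝ} [IsProbabilityMeasure μT] [IsProbabilityMeasure μS]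
    (hS : ∀ᵐ s ∂μS, 0 ≤ s) (X : ℝ) (n : ℕ) (w : Fin (m + 1) → ℝ) (hw : Monotone w) (y : ℝ) :
    ∑ i ∈ Finset.range n, QP (μS.prod μT) (fseq (μS.prod μT) X i) (w, y) ≤ 1 := by
  have hν : ∀ᵐ p ∂(μS.prod μT), 0 ≤ p.1 :=
      (Measure.quasiMeasurePreserving_fst (μ := μS) (ν := μT)).ae hS
  set a := μS (Set.Ioi (y - w 0)) with ha
  have e2 : ∑ i ∈ Finset.range n, QP (μS.prod μT) (fseq (μS.prod μT) X i) (w, y) =
      ∫⁻ p, ∑ i ∈ Finset.range n, (if y < w 0 + p.1 then
        fseq (μS.prod μT) X i (kwStep w p.1 p.2, y - p.2) else 0) ∂(μS.prod μT) := by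
    rw [lintegral_finsetSum]
    · rfl
    · intro i _
      exact (measurable_QPint _ (measurable_fseq (μS.prod μT) X i)).comp
        ((measurable_const : Measurable (fun _ : ℝ × ℝ => (w, y))).prodMk measurable_id)
  rw [e2]
  have e3 : ∫⁻ p, ∑ i ∈ Finset.range n, (if y < w 0 + p.1 then
        fseq (μS.prod μT) X i (kwStep w p.1 p.2, y - p.2) else 0) ∂(μS.prod μT) ≤
      ∫⁻ p, (if y < w 0 + p.1 then a⁻¹ else 0) ∂(μS.prod μT) := by
    apply lintegral_mono_ae
    filter_upwards [hν] with p hp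
    by_cases h : y < w 0 + p.1
    · simp only [if_pos h]
      refine (psi_bound hS X n _ (kwStep_mono w p.1 p.2) _).trans ?_
      apply ENNReal.inv_le_inv.2
      apply measure_mono
      apply Set.Ioi_subset_Ioi
      have := kwStep_zero_ge w hw p.1 p.2 hp
      linarith
    · simp [if_neg h]
  refine e3.trans ?_
  rw [lintegral_fst (fun s => if y < w 0 + s then a⁻¹ else 0)]
  · have : (fun s : ℝ => if y < w 0 + s then a⁻¹ else 0) =
        Set.indicator (Set.Ioi (y - w 0)) (fun _ => a⁻¹) := by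
      funext s
      rw [Set.indicator_apply]
      have : (y < w 0 + s) ↔ s ∈ Set.Ioi (y - w 0) := by
        rw [Set.mem_Ioi]
        constructor <;> intro h <;> linarith
      simp only [this]
    rw [this, lintegral_indicator measurableSet_Ioi, setLIntegral_const]
    exact ENNReal.inv_mul_le_one a
  · apply Measurable.ite _ measurable_const measurable_const
    exact measurableSet_lt measurable_const (measurable_const.add measurable_id)

/-! ### The remainder -/

/-- Iterated convolution of the indicator of `[0, X]` with the interarrival law. -/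
noncomputable def rseq (μT : Measure ℝ) (X : ℝ) : ℕ → ℝ → ℝ≥0∞
  | 0 => fun y => if 0 ≤ y ∧ y ≤ X then 1 else 0
  | n + 1 => fun y => ∫⁻ t, rseq μT X n (y - t) ∂μT

lemma measurable_rseq (μT : Measure ℝ) [SFinite μT] (X : ℝ) (n : ℕ) :
    Measurable (rseq μT X n) := by
  induction n with
  | zero =>
    apply Measurable.ite _ measurable_const measurable_const
    exact (measurableSet_le measurable_const measurable_id).inter
      (measurableSet_le measurable_id measurable_const)
  | succ n ih =>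
    exact (ih.comp (measurable_fst.sub measurable_snd)).lintegral_prod_right'

lemma fseq_le_rseq {m : ℕ} {μT μS : Measure ℝ} [IsProbabilityMeasure μT]
    [IsProbabilityMeasure μS] (X : ℝ) (n : ℕ) (w : Fin (m + 1) → ℝ) (y : ℝ) :
    fseq (μS.prod μT) X n (w, y) ≤ rseq μT X n y := by
  induction n generalizing w y with
  | zero => simp only [fseq, rseq]; exact le_rfl
  | succ n ih =>
    simp only [fseq, rseq, QD]
    rw [← lintegral_snd (μS := μS) (fun t => rseq μT X n (y - t))]
    · apply lintegral_mono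
      intro p
      simp only
      split_ifs
      · exact ih _ _
      · exact zero_le
    · exact (measurable_rseq μT X n).comp (measurable_const.sub measurable_id)

lemma lintegral_rseq (μT : Measure ℝ) [IsProbabilityMeasure μT] (X : ℝ) (n : ℕ) :
    ∫⁻ y, rseq μT X n y = ENNReal.ofReal X := by
  induction n with
  | zero =>
    simp only [rseq]
    have : (fun y : ℝ => if 0 ≤ y ∧ y ≤ X then (1 : ℝ≥0∞) else 0) =
        Set.indicator (Set.Icc 0 X) (fun _ => 1) := by
      funext y
      rw [Set.indicator_apply]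
      rfl
    rw [this, lintegral_indicator measurableSet_Icc, setLIntegral_const, Real.volume_Icc]
    simp
  | succ n ih =>
    simp only [rseq]
    rw [lintegral_lintegral_swap]
    · have : ∀ t : ℝ, ∫⁻ y, rseq μT X n (y - t) = ENNReal.ofReal X := by
        intro t
        rw [lintegral_sub_right_eq_self (fun y => rseq μT X n y) t, ih]
      simp_rw [this]
      simp
    · exact ((measurable_rseq μT X n).comp (measurable_fst.sub measurable_snd)).aemeasurable

/-- The Laplace transform at `1`. -/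
noncomputable def lap (μT : Measure ℝ) : ℝ≥0∞ := ∫⁻ t, ENNReal.ofReal (Real.exp (-t)) ∂μT

lemma rseq_le (μT : Measure ℝ) (X : ℝ) (n : ℕ) (y : ℝ) :
    rseq μT X n y ≤ ENNReal.ofReal (Real.exp y) * lap μT ^ n := by
  induction n generalizing y with
  | zero =>
    simp only [rseq, pow_zero, mul_one]
    split_ifs with h
    · rw [← ENNReal.ofReal_one]
      exact ENNReal.ofReal_le_ofReal (Real.one_le_exp h.1)
    · exact zero_le
  | succ n ih =>
    simp only [rseq]
    calc ∫⁻ t, rseq μT X n (y - t) ∂μT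
        ≤ ∫⁻ t, (ENNReal.ofReal (Real.exp y) * lap μT ^ n) * ENNReal.ofReal (Real.exp (-t)) ∂μT := by
          apply lintegral_mono
          intro t
          refine (ih (y - t)).trans (le_of_eq ?_)
          rw [sub_eq_add_neg, Real.exp_add, ENNReal.ofReal_mul (Real.exp_pos _).le]
          ring
      _ = (ENNReal.ofReal (Real.exp y) * lap μT ^ n) * lap μT := by
          rw [lintegral_const_mul]
          · rfl
          · exact (Real.measurable_exp.comp measurable_neg).ennreal_ofReal
      _ = ENNReal.ofReal (Real.exp y) * lap μT ^ (n + 1) := by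
          rw [pow_succ]; ring

lemma lap_lt_one (μT : Measure ℝ) [IsProbabilityMeasure μT] (hT : ∀ᵐ t ∂μT, 0 ≤ t)
    (hT0 : ∫ t, t ∂μT ≠ 0) : lap μT < 1 := by
  have h1 : ∫⁻ _t, (1 : ℝ≥0∞) ∂μT = 1 := by simp
  rw [← h1]
  unfold lap
  apply lintegral_strict_mono_of_ae_le_of_frequently_ae_lt
  · exact aemeasurable_const
  · refine ne_top_of_le_ne_top ENNReal.one_ne_top ?_
    calc ∫⁻ t, ENNReal.ofReal (Real.exp (-t)) ∂μT ≤ ∫⁻ _t, 1 ∂μT := by
          apply lintegral_mono_ae
          filter_upwards [hT] with t ht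
          rw [← ENNReal.ofReal_one]
          exact ENNReal.ofReal_le_ofReal (Real.exp_le_one_iff.2 (by linarith))
      _ = 1 := h1
  · filter_upwards [hT] with t ht
    rw [← ENNReal.ofReal_one]
    exact ENNReal.ofReal_le_ofReal (Real.exp_le_one_iff.2 (by linarith))
  · intro h
    apply hT0
    have : ∀ᵐ t ∂μT, t = 0 := by
      filter_upwards [h] with t ht
      push Not at ht
      rw [← ENNReal.ofReal_one] at ht
      have h2 := (ENNReal.ofReal_eq_ofReal_iff (Real.exp_pos _).le zero_le_one).1 ht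
      rw [Real.exp_eq_one_iff] at h2
      linarith
    rw [integral_congr_ae this]
    simp

/-- The remainder function. -/
noncomputable def grem {m : ℕ} (μT : Measure ℝ) (X : ℝ) (n : ℕ) (w : Fin (m + 1) → ℝ) : ℝ≥0∞ :=
  ∫⁻ y, (if 0 ≤ y ∧ y < w (Fin.last m) then rseq μT X n y else 0)

lemma measurable_grem {m : ℕ} (μT : Measure ℝ) [SFinite μT] (X : ℝ) (n : ℕ) :
    Measurable (grem (m := m) μT X n) := by
  have : Measurable (fun q : (Fin (m + 1) → ℝ) × ℝ =>
      if 0 ≤ q.2 ∧ q.2 < q.1 (Fin.last m) then rseq μT X n q.2 else 0) := by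
    apply Measurable.ite _ ((measurable_rseq μT X n).comp measurable_snd) measurable_const
    exact (measurableSet_le measurable_const measurable_snd).inter
      (measurableSet_lt measurable_snd ((measurable_pi_apply _).comp measurable_fst))
  exact this.lintegral_prod_right'

lemma grem_le {m : ℕ} (μT : Measure ℝ) [IsProbabilityMeasure μT] (X : ℝ) (n : ℕ)
    (w : Fin (m + 1) → ℝ) : grem μT X n w ≤ ENNReal.ofReal X := by
  rw [← lintegral_rseq μT X n]
  apply lintegral_mono
  intro y
  simp only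
  split_ifs
  · exact le_rfl
  · exact zero_le

lemma grem_le' {m : ℕ} (μT : Measure ℝ) (X : ℝ) (n : ℕ)
    (w : Fin (m + 1) → ℝ) : grem μT X n w ≤
      (ENNReal.ofReal (Real.exp (w (Fin.last m))) * ENNReal.ofReal (w (Fin.last m))) *
        lap μT ^ n := by
  set b := w (Fin.last m) with hb
  have h1 : grem μT X n w ≤ ∫⁻ y, Set.indicator (Set.Ico 0 b)
      (fun _ => ENNReal.ofReal (Real.exp b) * lap μT ^ n) y := by
    apply lintegral_mono
    intro y
    simp only [Set.indicator_apply, Set.mem_Ico]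
    split_ifs with h
    · refine (rseq_le μT X n y).trans ?_
      gcongr
      exact h.2.le
    · exact le_rfl
  refine h1.trans (le_of_eq ?_)
  rw [lintegral_indicator measurableSet_Ico, setLIntegral_const, Real.volume_Ico, sub_zero]
  ring

lemma grem_tendsto {m : ℕ} (μT : Measure ℝ) (X : ℝ) (hc : lap μT < 1)
    (w : Fin (m + 1) → ℝ) : Filter.Tendsto (fun n => grem μT X n w) Filter.atTop (nhds 0) := by
  have h1 : Filter.Tendsto (fun n : ℕ => lap μT ^ n) Filter.atTop (nhds 0) :=
    ENNReal.tendsto_pow_atTop_nhds_zero_of_lt_one hc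
  have h2 : Filter.Tendsto (fun n : ℕ => (ENNReal.ofReal (Real.exp (w (Fin.last m))) *
      ENNReal.ofReal (w (Fin.last m))) * lap μT ^ n) Filter.atTop (nhds 0) := by
    have := ENNReal.Tendsto.const_mul (a := ENNReal.ofReal (Real.exp (w (Fin.last m))) *
      ENNReal.ofReal (w (Fin.last m))) h1
      (Or.inr (ENNReal.mul_ne_top ENNReal.ofReal_ne_top ENNReal.ofReal_ne_top))
    simpa using this
  exact tendsto_of_tendsto_of_tendsto_of_le_of_le tendsto_const_nhds h2
    (fun _ => zero_le) (fun n => grem_le' μT X n w)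

lemma int_grem_tendsto {m : ℕ} (μT : Measure ℝ) [IsProbabilityMeasure μT] (X : ℝ)
    (hc : lap μT < 1) (π : Measure (Fin (m + 1) → ℝ)) [IsProbabilityMeasure π] :
    Filter.Tendsto (fun n => ∫⁻ w, grem μT X n w ∂π) Filter.atTop (nhds 0) := by
  have := tendsto_lintegral_of_dominated_convergence (μ := π)
    (F := fun n w => grem μT X n w) (f := fun _ => 0) (fun _ => ENNReal.ofReal X)
    (fun n => measurable_grem μT X n) (fun n => Filter.Eventually.of_forall (grem_le μT X n))
    (by simp) (Filter.Eventually.of_forall (fun w => grem_tendsto μT X hc w))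
  simpa using this

/-! ### The main inequality -/

/-- Integral of `F` over the pairs `(w, y)` with exactly `j` coordinates above `y`. -/
noncomputable def area {m : ℕ} (π : Measure (Fin (m + 1) → ℝ)) (j : ℕ)
    (F : (Fin (m + 1) → ℝ) × ℝ → ℝ≥0∞) : ℝ≥0∞ :=
  ∫⁻ w, ∫⁻ y, (if above w y = j then F (w, y) else 0) ∂volume ∂π

lemma measurable_cut {m : ℕ} (j : ℕ) (F : (Fin (m + 1) → ℝ) × ℝ → ℝ≥0∞) (hF : Measurable F) :
    Measurable (fun q : (Fin (m + 1) → ℝ) × ℝ => if above q.1 q.2 = j then F q else 0) :=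
  Measurable.ite (measurable_above (measurableSet_singleton j)) hF measurable_const

lemma area_iter {m : ℕ} {μT μS : Measure ℝ} [IsProbabilityMeasure μT]
    [IsProbabilityMeasure μS] {π : Measure (Fin (m + 1) → ℝ)}
    (hπ : IsStationary (m + 1) μT μS π) (hS : ∀ᵐ s ∂μS, 0 ≤ s) (hT : ∀ᵐ t ∂μT, 0 ≤ t)
    (j : ℕ) (hj : j + 1 < m + 1) (X : ℝ) (n : ℕ) :
    area π (j + 1) (fseq (μS.prod μT) X 0) =
      ∑ i ∈ Finset.range n, area π j (QP (μS.prod μT) (fseq (μS.prod μT) X i)) +
        area π (j + 1) (fseq (μS.prod μT) X n) := by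
  have hν : ∀ᵐ p ∂(μS.prod μT), 0 ≤ p.2 :=
      (Measure.quasiMeasurePreserving_snd (μ := μS) (ν := μT)).ae hT
  induction n with
  | zero => simp
  | succ n ih =>
    rw [ih, Finset.sum_range_succ, add_assoc]
    congr 1
    exact step_identity hπ hS j hj _ (measurable_fseq _ X n)
      (fun w y hy => fseq_neg _ X hν n w y hy)

lemma area_sum_le {m : ℕ} {μT μS : Measure ℝ} [IsProbabilityMeasure μT]
    [IsProbabilityMeasure μS] {π : Measure (Fin (m + 1) → ℝ)}
    (hπ : IsStationary (m + 1) μT μS π) (hS : ∀ᵐ s ∂μS, 0 ≤ s) (hT : ∀ᵐ t ∂μT, 0 ≤ t)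
    (j : ℕ) (X : ℝ) (n : ℕ) :
    ∑ i ∈ Finset.range n, area π j (QP (μS.prod μT) (fseq (μS.prod μT) X i)) ≤
      area π j (fun q => if 0 ≤ q.2 then 1 else 0) := by
  have hν : ∀ᵐ p ∂(μS.prod μT), 0 ≤ p.2 :=
      (Measure.quasiMeasurePreserving_snd (μ := μS) (ν := μT)).ae hT
  have mQ : ∀ i, Measurable (QP (m := m) (μS.prod μT) (fseq (μS.prod μT) X i)) :=
    fun i => measurable_QP _ _ (measurable_fseq _ X i)
  unfold area
  rw [← lintegral_finsetSum]
  swap
  · intro i _
    exact (measurable_cut j _ (mQ i)).lintegral_prod_right'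
  apply lintegral_mono_ae
  filter_upwards [hπ.ordered] with w hw
  rw [← lintegral_finsetSum]
  swap
  · intro i _
    exact (measurable_cut j _ (mQ i)).comp
      ((measurable_const : Measurable (fun _ : ℝ => w)).prodMk measurable_id)
  apply lintegral_mono
  intro y
  simp only
  by_cases h : above w y = j
  · simp only [if_pos h]
    rcases lt_or_ge y 0 with hy | hy
    · rw [Finset.sum_eq_zero]
      · exact zero_le
      · intro i _
        unfold QP
        rw [lintegral_congr_ae (g := fun _ => 0)]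
        · simp
        · filter_upwards [hν] with p hp
          rw [fseq_neg _ X hν i _ _ (by linarith)]
          simp
    · rw [if_pos hy]
      exact QP_bound hS X n w hw.1 y
  · simp [if_neg h]

lemma area_fseq_le {m : ℕ} {μT μS : Measure ℝ} [IsProbabilityMeasure μT]
    [IsProbabilityMeasure μS] {π : Measure (Fin (m + 1) → ℝ)}
    (hπ : IsStationary (m + 1) μT μS π) (hT : ∀ᵐ t ∂μT, 0 ≤ t)
    (j : ℕ) (X : ℝ) (n : ℕ) :
    area π (j + 1) (fseq (μS.prod μT) X n) ≤ ∫⁻ w, grem μT X n w ∂π := by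
  have hν : ∀ᵐ p ∂(μS.prod μT), 0 ≤ p.2 :=
      (Measure.quasiMeasurePreserving_snd (μ := μS) (ν := μT)).ae hT
  unfold area grem
  apply lintegral_mono_ae
  filter_upwards [hπ.ordered] with w hw
  apply lintegral_mono
  intro y
  simp only
  by_cases h : above w y = j + 1
  · rw [if_pos h]
    rcases lt_or_ge y 0 with hy | hy
    · rw [fseq_neg _ X hν n w y hy]
      exact zero_le
    · have hlast : y < w (Fin.last m) := by
        by_contra hcon
        push Not at hcon
        have : Finset.univ.filter (fun i => y < w i) = ∅ := by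
          ext i
          simp only [Finset.mem_filter, Finset.mem_univ, true_and, Finset.notMem_empty,
            iff_false, not_lt]
          exact (hw.1 (Fin.le_last i)).trans hcon
        unfold above at h
        rw [this] at h
        simp at h
      rw [if_pos ⟨hy, hlast⟩]
      exact fseq_le_rseq X n w y
  · rw [if_neg h]
    exact zero_le

lemma area_le {m : ℕ} {μT μS : Measure ℝ} [IsProbabilityMeasure μT]
    [IsProbabilityMeasure μS] {π : Measure (Fin (m + 1) → ℝ)}
    (hπ : IsStationary (m + 1) μT μS π) (hS : ∀ᵐ s ∂μS, 0 ≤ s) (hT : ∀ᵐ t ∂μT, 0 ≤ t)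
    (hT0 : ∫ t, t ∂μT ≠ 0) (j : ℕ) (hj : j + 1 < m + 1) (X : ℝ) :
    area π (j + 1) (fseq (μS.prod μT) X 0) ≤ area π j (fun q => if 0 ≤ q.2 then 1 else 0) := by
  have := hπ.prob
  have h1 : ∀ n, area π (j + 1) (fseq (μS.prod μT) X 0) ≤
      area π j (fun q => if 0 ≤ q.2 then 1 else 0) + ∫⁻ w, grem μT X n w ∂π := by
    intro n
    rw [area_iter hπ hS hT j hj X n]
    exact add_le_add (area_sum_le hπ hS hT j X n) (area_fseq_le hπ hT j X n)
  have h2 : Filter.Tendsto (fun n => area π j (fun q => if 0 ≤ q.2 then 1 else 0) +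
      ∫⁻ w, grem μT X n w ∂π) Filter.atTop
      (nhds (area π j (fun q => if 0 ≤ q.2 then 1 else 0) + 0)) :=
    tendsto_const_nhds.add (int_grem_tendsto μT X (lap_lt_one μT hT hT0) π)
  rw [add_zero] at h2
  exact ge_of_tendsto' h2 h1

lemma area_mono {m : ℕ} {μT μS : Measure ℝ} [IsProbabilityMeasure μT]
    [IsProbabilityMeasure μS] {π : Measure (Fin (m + 1) → ℝ)}
    (hπ : IsStationary (m + 1) μT μS π) (hS : ∀ᵐ s ∂μS, 0 ≤ s) (hT : ∀ᵐ t ∂μT, 0 ≤ t)
    (hT0 : ∫ t, t ∂μT ≠ 0) (j : ℕ) (hj : j + 1 < m + 1) :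
    area π (j + 1) (fun q => if 0 ≤ q.2 then 1 else 0) ≤
      area π j (fun q => if 0 ≤ q.2 then 1 else 0) := by
  have h1 : area π (j + 1) (fun q => if 0 ≤ q.2 then 1 else 0) =
      ⨆ n : ℕ, area π (j + 1) (fseq (μS.prod μT) n 0) := by
    unfold area
    have mf : ∀ n : ℕ, Measurable (fun q : (Fin (m + 1) → ℝ) × ℝ =>
        if above q.1 q.2 = j + 1 then fseq (μS.prod μT) n 0 q else 0) :=
      fun n => measurable_cut (j + 1) _ (measurable_fseq _ n 0)
    have mono : ∀ w : Fin (m + 1) → ℝ, ∀ a b : ℕ, a ≤ b → ∀ y : ℝ,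
        (if above w y = j + 1 then fseq (μS.prod μT) a 0 (w, y) else 0) ≤
        (if above w y = j + 1 then fseq (μS.prod μT) b 0 (w, y) else 0) := by
      intro w a b hab y
      split_ifs
      · simp only [fseq]
        have hab' : (a : ℝ) ≤ b := by exact_mod_cast hab
        by_cases h : 0 ≤ y ∧ y ≤ (a : ℝ)
        · rw [if_pos h, if_pos ⟨h.1, h.2.trans hab'⟩]
        · rw [if_neg h]
          exact zero_le
      · exact le_rfl
    rw [← lintegral_iSup]
    · apply lintegral_congr
      intro w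
      rw [← lintegral_iSup]
      · apply lintegral_congr
        intro y
        by_cases h : above w y = j + 1
        · simp only [if_pos h, fseq]
          by_cases hy : 0 ≤ y
          · rw [if_pos hy]
            apply le_antisymm
            · obtain ⟨n, hn⟩ := exists_nat_ge y
              refine le_iSup_of_le n ?_
              rw [if_pos ⟨hy, hn⟩]
            · apply iSup_le
              intro n
              split_ifs <;> simp
          · rw [if_neg hy]
            symm
            rw [ENNReal.iSup_eq_zero]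
            intro n
            rw [if_neg (fun h => hy h.1)]
        · simp [if_neg h]
      · intro n
        exact (mf n).comp ((measurable_const : Measurable (fun _ : ℝ => w)).prodMk measurable_id)
      · intro a b hab y
        exact mono w a b hab y
    · intro n
      exact (mf n).lintegral_prod_right'
    · intro a b hab w
      apply lintegral_mono
      intro y
      exact mono w a b hab y
  rw [h1]
  exact iSup_le (fun n => area_le hπ hS hT hT0 j hj n)

/-! ### Gaps of the ordered vector -/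

lemma above_eq_iff {m : ℕ} (w : Fin (m + 1) → ℝ) (hw : Monotone w) (y : ℝ) (i : ℕ)
    (hi : i + 1 < m + 1) :
    above w y = m - i ↔ w ⟨i, by omega⟩ ≤ y ∧ y < w ⟨i + 1, hi⟩ := by
  have h1 : (Finset.univ.filter (fun l => w l ≤ y)).card + above w y = m + 1 := by
    unfold above
    have h2 := Finset.card_filter_add_card_filter_not (s := (Finset.univ : Finset (Fin (m + 1))))
      (fun l => w l ≤ y)
    simp only [not_le, Finset.card_univ, Fintype.card_fin] at h2
    exact h2
  have h3 := Tuple.lt_card_le_iff_apply_le_of_monotone (f := w) (a := y) (j := ⟨i, by omega⟩) hw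
  have h4 := Tuple.lt_card_le_iff_apply_le_of_monotone (f := w) (a := y) (j := ⟨i + 1, hi⟩) hw
  simp only at h3 h4
  have h5 : y < w ⟨i + 1, hi⟩ ↔ ¬ (w ⟨i + 1, hi⟩ ≤ y) := not_le.symm
  rw [h5, ← h3, ← h4]
  omega

lemma area_eq_gap {m : ℕ} (π : Measure (Fin (m + 1) → ℝ))
    (hπ : ∀ᵐ w ∂π, Monotone w ∧ ∀ i, 0 ≤ w i) (i : ℕ) (hi : i + 1 < m + 1) :
    area π (m - i) (fun q => if 0 ≤ q.2 then 1 else 0) =
      ∫⁻ w, ENNReal.ofReal (w ⟨i + 1, hi⟩ - w ⟨i, by omega⟩) ∂π := by
  unfold area
  apply lintegral_congr_ae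
  filter_upwards [hπ] with w hw
  have : (fun y : ℝ => if above w y = m - i then (if 0 ≤ y then (1 : ℝ≥0∞) else 0) else 0) =
      Set.indicator (Set.Ico (w ⟨i, by omega⟩) (w ⟨i + 1, hi⟩)) (fun _ => 1) := by
    funext y
    rw [Set.indicator_apply]
    have hiff := above_eq_iff w hw.1 y i hi
    by_cases h : above w y = m - i
    · have h' := hiff.1 h
      have hy : 0 ≤ y := (hw.2 _).trans h'.1
      rw [if_pos h, if_pos hy, if_pos (Set.mem_Ico.2 h')]
    · rw [if_neg h, if_neg (fun h' => h (hiff.2 (Set.mem_Ico.1 h')))]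
  rw [this, lintegral_indicator measurableSet_Ico, setLIntegral_const, Real.volume_Ico, one_mul]

lemma gap_mono {m : ℕ} {μT μS : Measure ℝ} [IsProbabilityMeasure μT]
    [IsProbabilityMeasure μS] {π : Measure (Fin (m + 1) → ℝ)}
    (hπ : IsStationary (m + 1) μT μS π) (hS : ∀ᵐ s ∂μS, 0 ≤ s) (hT : ∀ᵐ t ∂μT, 0 ≤ t)
    (hT0 : ∫ t, t ∂μT ≠ 0) (i : ℕ) (hi : i + 2 < m + 1) :
    ∫⁻ w, ENNReal.ofReal (w ⟨i + 1, by omega⟩ - w ⟨i, by omega⟩) ∂π ≤
      ∫⁻ w, ENNReal.ofReal (w ⟨i + 2, hi⟩ - w ⟨i + 1, by omega⟩) ∂π := by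
  rw [← area_eq_gap π hπ.ordered i (by omega), ← area_eq_gap π hπ.ordered (i + 1) (by omega)]
  have h := area_mono hπ hS hT hT0 (m - (i + 1)) (by omega)
  have e : m - (i + 1) + 1 = m - i := by omega
  rwa [e] at h

/-- Convexity in the extended nonnegative numbers, without moment conditions. -/
lemma convex_ennreal {m : ℕ} {μT μS : Measure ℝ} [IsProbabilityMeasure μT]
    [IsProbabilityMeasure μS] {π : Measure (Fin (m + 1) → ℝ)}
    (hπ : IsStationary (m + 1) μT μS π) (hS : ∀ᵐ s ∂μS, 0 ≤ s) (hT : ∀ᵐ t ∂μT, 0 ≤ t)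
    (hT0 : ∫ t, t ∂μT ≠ 0) (i : ℕ) (hi : i + 2 < m + 1) :
    2 * ∫⁻ w, ENNReal.ofReal (w ⟨i + 1, by omega⟩) ∂π ≤
      ∫⁻ w, ENNReal.ofReal (w ⟨i, by omega⟩) ∂π + ∫⁻ w, ENNReal.ofReal (w ⟨i + 2, hi⟩) ∂π := by
  have mE : ∀ l : Fin (m + 1), Measurable (fun w : Fin (m + 1) → ℝ => ENNReal.ofReal (w l)) :=
    fun l => (measurable_pi_apply l).ennreal_ofReal
  have split : ∀ a b : Fin (m + 1), a ≤ b →
      ∫⁻ w, ENNReal.ofReal (w b) ∂π = ∫⁻ w, ENNReal.ofReal (w a) ∂π +
        ∫⁻ w, ENNReal.ofReal (w b - w a) ∂π := by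
    intro a b hab
    rw [← lintegral_add_left (mE a)]
    apply lintegral_congr_ae
    filter_upwards [hπ.ordered] with w hw
    rw [← ENNReal.ofReal_add (hw.2 a) (by linarith [hw.1 hab])]
    congr 1
    ring
  have g := gap_mono hπ hS hT hT0 i hi
  have s1 := split ⟨i, by omega⟩ ⟨i + 1, by omega⟩ (by simp)
  have s2 := split ⟨i + 1, by omega⟩ ⟨i + 2, hi⟩ (by simp)
  calc 2 * ∫⁻ w, ENNReal.ofReal (w ⟨i + 1, by omega⟩) ∂π
      = ∫⁻ w, ENNReal.ofReal (w ⟨i + 1, by omega⟩) ∂π +
        (∫⁻ w, ENNReal.ofReal (w ⟨i, by omega⟩) ∂π +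
          ∫⁻ w, ENNReal.ofReal (w ⟨i + 1, by omega⟩ - w ⟨i, by omega⟩) ∂π) := by
        rw [two_mul, ← s1]
    _ = ∫⁻ w, ENNReal.ofReal (w ⟨i, by omega⟩) ∂π +
        (∫⁻ w, ENNReal.ofReal (w ⟨i + 1, by omega⟩) ∂π +
          ∫⁻ w, ENNReal.ofReal (w ⟨i + 1, by omega⟩ - w ⟨i, by omega⟩) ∂π) := by ring
    _ ≤ ∫⁻ w, ENNReal.ofReal (w ⟨i, by omega⟩) ∂π +
        (∫⁻ w, ENNReal.ofReal (w ⟨i + 1, by omega⟩) ∂π +
          ∫⁻ w, ENNReal.ofReal (w ⟨i + 2, hi⟩ - w ⟨i + 1, by omega⟩) ∂π) := by gcongr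
    _ = _ := by rw [← s2]

/-! ### Finiteness of the mean workloads -/

/-- Sum of squares of the coordinates. -/
noncomputable def sq {m : ℕ} (w : Fin (m + 1) → ℝ) : ℝ := ∑ i, w i ^ 2

lemma sq_nonneg' {m : ℕ} (w : Fin (m + 1) → ℝ) : 0 ≤ sq w :=
  Finset.sum_nonneg (fun i _ => sq_nonneg (w i))

lemma measurable_sq {m : ℕ} : Measurable (sq : (Fin (m + 1) → ℝ) → ℝ) := by
  unfold sq
  apply Finset.measurable_sum
  intro i _
  exact (measurable_pi_apply i).pow_const 2

lemma sq_kwStep_le {m : ℕ} (w : Fin (m + 1) → ℝ) (s t : ℝ) :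
    sq (kwStep w s t) ≤ sq w + 2 * w 0 * s - 2 * t * (∑ i, w i) + ((s - t) ^ 2 + m * t ^ 2) := by
  have h1 : sq (kwStep w s t) =
      ∑ i : Fin (m + 1), (max (w i + (if (i : ℕ) = 0 then s else 0) - t) 0) ^ 2 := by
    unfold sq kwStep increasing
    exact Equiv.sum_comp (Tuple.sort _) (fun i : Fin (m + 1) =>
      (max (w i + (if (i : ℕ) = 0 then s else 0) - t) 0) ^ 2)
  have h2 : ∀ a : ℝ, (max a 0) ^ 2 ≤ a ^ 2 := by
    intro a
    rcases le_total a 0 with h | h
    · rw [max_eq_right h]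
      nlinarith [sq_nonneg a]
    · rw [max_eq_left h]
  have h3 : sq (kwStep w s t) ≤ ∑ i : Fin (m + 1), (w i + (if (i : ℕ) = 0 then s else 0) - t) ^ 2 := by
    rw [h1]
    exact Finset.sum_le_sum (fun i _ => h2 _)
  refine h3.trans (le_of_eq ?_)
  unfold sq
  rw [Fin.sum_univ_succ, Fin.sum_univ_succ (f := fun i => w i ^ 2), Fin.sum_univ_succ (f := w)]
  have h4 : ∑ i : Fin m, (w i.succ + (if ((i.succ : Fin (m + 1)) : ℕ) = 0 then s else 0) - t) ^ 2 =
      ∑ i : Fin m, w i.succ ^ 2 - 2 * t * ∑ i : Fin m, w i.succ + m * t ^ 2 := by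
    rw [Finset.mul_sum, ← Finset.sum_sub_distrib]
    have : (m : ℝ) * t ^ 2 = ∑ _i : Fin m, t ^ 2 := by simp
    rw [this, ← Finset.sum_add_distrib]
    apply Finset.sum_congr rfl
    intro i _
    rw [if_neg (by simp)]
    ring
  rw [h4]
  simp only [Fin.val_zero, if_true]
  ring

lemma head_le_mean {m : ℕ} (w : Fin (m + 1) → ℝ) (hw : Monotone w) :
    (m + 1 : ℝ) * w 0 ≤ ∑ i, w i := by
  have : ∑ _i : Fin (m + 1), w 0 ≤ ∑ i, w i :=
    Finset.sum_le_sum (fun i _ => hw (Fin.zero_le i))
  simpa using this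

/-- The drift inequality for the sum of squares. -/
lemma drift {m : ℕ} {μT μS : Measure ℝ} [IsProbabilityMeasure μT] [IsProbabilityMeasure μS]
    (hS : ∀ᵐ s ∂μS, 0 ≤ s)
    (iS : Integrable (fun s : ℝ => s) μS) (iT : Integrable (fun t : ℝ => t) μT)
    (iS2 : Integrable (fun s : ℝ => s ^ 2) μS) (iT2 : Integrable (fun t : ℝ => t ^ 2) μT)
    (hρ : ∫ s, s ∂μS < (m + 1) * ∫ t, t ∂μT) :
    ∃ C : ℝ, ∀ w : Fin (m + 1) → ℝ, Monotone w → (∀ i, 0 ≤ w i) →
      ∫⁻ p, ENNReal.ofReal (sq (kwStep w p.1 p.2)) ∂(μS.prod μT) +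
        ENNReal.ofReal (2 * (∫ t, t ∂μT - (∫ s, s ∂μS) / (m + 1)) * ∑ i, w i) ≤
      ENNReal.ofReal (sq w) + ENNReal.ofReal C := by
  have jS : Integrable (fun p : ℝ × ℝ => p.1) (μS.prod μT) := iS.comp_fst μT
  have jT : Integrable (fun p : ℝ × ℝ => p.2) (μS.prod μT) := iT.comp_snd μS
  have jS2 : Integrable (fun p : ℝ × ℝ => p.1 ^ 2) (μS.prod μT) := iS2.comp_fst μT
  have jT2 : Integrable (fun p : ℝ × ℝ => p.2 ^ 2) (μS.prod μT) := iT2.comp_snd μS
  have jST : Integrable (fun p : ℝ × ℝ => p.1 * p.2) (μS.prod μT) := iS.mul_prod iT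
  have jD : Integrable (fun p : ℝ × ℝ => (p.1 - p.2) ^ 2) (μS.prod μT) := by
    have : (fun p : ℝ × ℝ => (p.1 - p.2) ^ 2) = fun p => p.1 ^ 2 - 2 * (p.1 * p.2) + p.2 ^ 2 := by
      funext p; ring
    rw [this]
    exact (jS2.sub (jST.const_mul 2)).add jT2
  have jC : Integrable (fun p : ℝ × ℝ => (p.1 - p.2) ^ 2 + m * p.2 ^ 2) (μS.prod μT) :=
    jD.add (jT2.const_mul _)
  set C := ∫ p, ((p.1 - p.2) ^ 2 + m * p.2 ^ 2) ∂(μS.prod μT) with hC
  refine ⟨C, ?_⟩
  intro w hw hw0
  set L := ∑ i, w i with hL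
  have eS : ∫ p, p.1 ∂(μS.prod μT) = ∫ s, s ∂μS := by
    rw [integral_prod _ jS]
    simp
  have eT : ∫ p, p.2 ∂(μS.prod μT) = ∫ t, t ∂μT := by
    rw [integral_prod _ jT]
    simp
  have jB : Integrable (fun p : ℝ × ℝ => sq w + 2 * w 0 * p.1 - 2 * p.2 * L +
      ((p.1 - p.2) ^ 2 + m * p.2 ^ 2)) (μS.prod μT) := by
    have h2 : Integrable (fun p : ℝ × ℝ => 2 * p.2 * L) (μS.prod μT) :=
      (jT.const_mul 2).mul_const L
    exact (((integrable_const (sq w)).add (jS.const_mul (2 * w 0))).sub h2).add jC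
  have eB : ∫ p, (sq w + 2 * w 0 * p.1 - 2 * p.2 * L +
      ((p.1 - p.2) ^ 2 + m * p.2 ^ 2)) ∂(μS.prod μT) =
      sq w + 2 * w 0 * (∫ s, s ∂μS) - 2 * (∫ t, t ∂μT) * L + C := by
    have h2 : Integrable (fun p : ℝ × ℝ => 2 * p.2 * L) (μS.prod μT) :=
      (jT.const_mul 2).mul_const L
    have h3 : Integrable (fun p : ℝ × ℝ => sq w + 2 * w 0 * p.1) (μS.prod μT) :=
      (integrable_const (sq w)).add (jS.const_mul (2 * w 0))
    have h4 : Integrable (fun p : ℝ × ℝ => sq w + 2 * w 0 * p.1 - 2 * p.2 * L)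
        (μS.prod μT) := h3.sub h2
    rw [integral_add h4 jC, integral_sub h3 h2,
      integral_add (integrable_const _) (jS.const_mul _), integral_const, integral_const_mul,
      integral_mul_const, integral_const_mul, eS, eT]
    simp
    exact hC.symm
  have hB0 : ∀ p : ℝ × ℝ, 0 ≤ sq w + 2 * w 0 * p.1 - 2 * p.2 * L +
      ((p.1 - p.2) ^ 2 + m * p.2 ^ 2) := fun p =>
    (sq_nonneg' _).trans (sq_kwStep_le w p.1 p.2)
  have h1 : ∫⁻ p, ENNReal.ofReal (sq (kwStep w p.1 p.2)) ∂(μS.prod μT) ≤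
      ENNReal.ofReal (sq w + 2 * w 0 * (∫ s, s ∂μS) - 2 * (∫ t, t ∂μT) * L + C) := by
    rw [← eB, ofReal_integral_eq_lintegral_ofReal jB (Filter.Eventually.of_forall hB0)]
    apply lintegral_mono
    intro p
    exact ENNReal.ofReal_le_ofReal (sq_kwStep_le w p.1 p.2)
  have hm : (0 : ℝ) < m + 1 := by positivity
  have hL0 : 0 ≤ L := Finset.sum_nonneg (fun i _ => hw0 i)
  have hη : 0 ≤ ∫ t, t ∂μT - (∫ s, s ∂μS) / (m + 1) := by
    rw [sub_nonneg, div_le_iff₀ hm]
    linarith
  have hES : 0 ≤ ∫ s, s ∂μS := integral_nonneg_of_ae hS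
  have hC0 : 0 ≤ C := integral_nonneg (fun p => by positivity)
  have hI0 : 0 ≤ sq w + 2 * w 0 * (∫ s, s ∂μS) - 2 * (∫ t, t ∂μT) * L + C := by
    rw [← eB]
    exact integral_nonneg hB0
  refine (add_le_add_left h1 _).trans ?_
  rw [← ENNReal.ofReal_add hI0 (by positivity), ← ENNReal.ofReal_add (sq_nonneg' w) hC0]
  apply ENNReal.ofReal_le_ofReal
  have hh := head_le_mean w hw
  have h5 : w 0 ≤ L / (m + 1) := by
    rw [le_div_iff₀ hm]
    linarith
  have h6 : w 0 * (∫ s, s ∂μS) ≤ L / (m + 1) * (∫ s, s ∂μS) := mul_le_mul_of_nonneg_right h5 hES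
  have h7 : L / (m + 1) * (∫ s, s ∂μS) = (∫ s, s ∂μS) / (m + 1) * L := by ring
  rw [h7] at h6
  nlinarith [h6]

/-- The mean of the total workload is finite. -/
lemma mean_finite {m : ℕ} {μT μS : Measure ℝ} [IsProbabilityMeasure μT] [IsProbabilityMeasure μS]
    {π : Measure (Fin (m + 1) → ℝ)} (hπ : IsStationary (m + 1) μT μS π)
    (hS : ∀ᵐ s ∂μS, 0 ≤ s)
    (iS : Integrable (fun s : ℝ => s) μS) (iT : Integrable (fun t : ℝ => t) μT)
    (iS2 : Integrable (fun s : ℝ => s ^ 2) μS) (iT2 : Integrable (fun t : ℝ => t ^ 2) μT)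
    (hρ : ∫ s, s ∂μS < (m + 1) * ∫ t, t ∂μT) :
    ∫⁻ w, ENNReal.ofReal (∑ i, w i) ∂π ≠ ⊤ := by
  have := hπ.prob
  obtain ⟨C, hC⟩ := drift (m := m) hS iS iT iS2 iT2 hρ
  set η : ℝ := 2 * (∫ t, t ∂μT - (∫ s, s ∂μS) / (m + 1)) with hη
  have hm : (0 : ℝ) < m + 1 := by positivity
  have hη0 : 0 < η := by
    have : (∫ s, s ∂μS) / (m + 1) < ∫ t, t ∂μT := by
      rw [div_lt_iff₀ hm]
      linarith
    rw [hη]
    linarith
  have msum : Measurable (fun w : Fin (m + 1) → ℝ => ∑ i, w i) :=
    Finset.measurable_sum _ (fun i _ => measurable_pi_apply i)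
  -- truncated drift
  have key : ∀ M : ℕ, ∫⁻ w, (if sq w ≤ (M : ℝ) then ENNReal.ofReal (η * ∑ i, w i) else 0) ∂π ≤
      ENNReal.ofReal C := by
    intro M
    set V : (Fin (m + 1) → ℝ) → ℝ≥0∞ := fun w => min (ENNReal.ofReal (sq w)) (M : ℝ≥0∞) with hV
    have mV : Measurable V := (measurable_sq.ennreal_ofReal).min measurable_const
    have hst := lintegral_stationary hπ V mV
    have hpt : ∀ᵐ w ∂π, ∫⁻ p, V (kwStep w p.1 p.2) ∂(μS.prod μT) +
        (if sq w ≤ (M : ℝ) then ENNReal.ofReal (η * ∑ i, w i) else 0) ≤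
        V w + ENNReal.ofReal C := by
      filter_upwards [hπ.ordered] with w hw
      by_cases h : sq w ≤ (M : ℝ)
      · rw [if_pos h]
        have h1 : V w = ENNReal.ofReal (sq w) := by
          rw [hV]
          apply min_eq_left
          rw [← ENNReal.ofReal_natCast]
          exact ENNReal.ofReal_le_ofReal h
        rw [h1]
        refine le_trans ?_ (hC w hw.1 hw.2)
        gcongr
        exact min_le_left _ _
      · rw [if_neg h, add_zero]
        push Not at h
        have h1 : V w = (M : ℝ≥0∞) := by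
          rw [hV]
          apply min_eq_right
          rw [← ENNReal.ofReal_natCast]
          exact ENNReal.ofReal_le_ofReal h.le
        rw [h1]
        refine le_trans ?_ (le_add_of_nonneg_right zero_le)
        calc ∫⁻ p, V (kwStep w p.1 p.2) ∂(μS.prod μT) ≤ ∫⁻ _p, (M : ℝ≥0∞) ∂(μS.prod μT) := by
              apply lintegral_mono
              intro p
              exact min_le_right _ _
          _ = M := by simp
    have h2 := lintegral_mono_ae hpt
    have m2 : Measurable (fun w : Fin (m + 1) → ℝ =>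
        if sq w ≤ (M : ℝ) then ENNReal.ofReal (η * ∑ i, w i) else 0) := by
      apply Measurable.ite _ _ measurable_const
      · exact measurableSet_le measurable_sq measurable_const
      · exact (msum.const_mul η).ennreal_ofReal
    rw [lintegral_add_right _ m2, ← hst, lintegral_add_right _ measurable_const] at h2
    have hfin : ∫⁻ w, V w ∂π ≠ ⊤ := by
      refine ne_top_of_le_ne_top (ENNReal.natCast_ne_top M) ?_
      calc ∫⁻ w, V w ∂π ≤ ∫⁻ _w, (M : ℝ≥0∞) ∂π := by
            apply lintegral_mono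
            intro w
            exact min_le_right _ _
        _ = M := by simp
    have h3 := (ENNReal.add_le_add_iff_left hfin).1 h2
    simpa using h3
  -- let the truncation tend to infinity
  have hsup : ∫⁻ w, ENNReal.ofReal (η * ∑ i, w i) ∂π ≤ ENNReal.ofReal C := by
    have e : (fun w : Fin (m + 1) → ℝ => ENNReal.ofReal (η * ∑ i, w i)) = fun w =>
        ⨆ M : ℕ, (if sq w ≤ (M : ℝ) then ENNReal.ofReal (η * ∑ i, w i) else 0) := by
      funext w
      apply le_antisymm
      · obtain ⟨M, hM⟩ := exists_nat_ge (sq w)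
        refine le_iSup_of_le M ?_
        rw [if_pos hM]
      · apply iSup_le
        intro M
        split_ifs
        · exact le_rfl
        · exact zero_le
    rw [e, lintegral_iSup]
    · exact iSup_le key
    · intro M
      apply Measurable.ite _ _ measurable_const
      · exact measurableSet_le measurable_sq measurable_const
      · exact (msum.const_mul η).ennreal_ofReal
    · intro a b hab w
      have hab' : (a : ℝ) ≤ b := by exact_mod_cast hab
      simp only
      by_cases h : sq w ≤ (a : ℝ)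
      · rw [if_pos h, if_pos (h.trans hab')]
      · rw [if_neg h]
        exact zero_le
  intro htop
  have h4 : ∫⁻ w, ENNReal.ofReal (η * ∑ i, w i) ∂π =
      ENNReal.ofReal η * ∫⁻ w, ENNReal.ofReal (∑ i, w i) ∂π := by
    rw [← lintegral_const_mul _ msum.ennreal_ofReal]
    apply lintegral_congr
    intro w
    rw [ENNReal.ofReal_mul hη0.le]
  rw [h4, htop, ENNReal.mul_top (by simpa using hη0)] at hsup
  exact absurd hsup (by simp)

lemma coord_integrable {m : ℕ} {μT μS : Measure ℝ} [IsProbabilityMeasure μT]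
    [IsProbabilityMeasure μS]
    {π : Measure (Fin (m + 1) → ℝ)} (hπ : IsStationary (m + 1) μT μS π)
    (hS : ∀ᵐ s ∂μS, 0 ≤ s)
    (iS : Integrable (fun s : ℝ => s) μS) (iT : Integrable (fun t : ℝ => t) μT)
    (iS2 : Integrable (fun s : ℝ => s ^ 2) μS) (iT2 : Integrable (fun t : ℝ => t ^ 2) μT)
    (hρ : ∫ s, s ∂μS < (m + 1) * ∫ t, t ∂μT) (i : Fin (m + 1)) :
    Integrable (fun w : Fin (m + 1) → ℝ => w i) π := by
  have h := mean_finite hπ hS iS iT iS2 iT2 hρ
  refine ⟨(measurable_pi_apply i).aestronglyMeasurable, ?_⟩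
  rw [hasFiniteIntegral_iff_norm]
  refine lt_of_le_of_lt ?_ (lt_top_iff_ne_top.2 h)
  apply lintegral_mono_ae
  filter_upwards [hπ.ordered] with w hw
  apply ENNReal.ofReal_le_ofReal
  rw [Real.norm_eq_abs, abs_of_nonneg (hw.2 i)]
  exact Finset.single_le_sum (f := fun j => w j) (fun j _ => hw.2 j) (Finset.mem_univ i)

/-- A sanity check: for `T = 1` and `S = 1` the point mass at `0` is stationary. -/
lemma stationary_example (m : ℕ) :
    IsStationary (m + 1) (Measure.dirac 1) (Measure.dirac 1) (Measure.dirac 0) := by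
  refine ⟨inferInstance, ?_, ?_⟩
  · have : ∀ᵐ w ∂(Measure.dirac (0 : Fin (m + 1) → ℝ)), w = 0 := by
      rw [ae_dirac_eq]
      exact Filter.eventually_pure.2 rfl
    filter_upwards [this] with w hw
    rw [hw]
    exact ⟨fun _ _ _ => le_rfl, fun _ => le_rfl⟩
  · rw [Measure.dirac_prod_dirac, Measure.dirac_prod_dirac, Measure.map_dirac' measurable_kwStep]
    congr 1
    unfold kwStep increasing
    funext i
    simp only [Function.comp_apply, Pi.zero_apply, zero_add]
    apply max_eq_right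
    split_ifs <;> norm_num

/-- In every GI/GI/k queue (`k ≥ 3`) with finite second moments and `0 < ρ < 1`, in the
stationary regime the mean ordered workloads `EW₁, …, EWₖ` are finite and form a convex
sequence. -/
theorem result (k : ℕ) (hk : 3 ≤ k) (μT μS : Measure ℝ) [IsProbabilityMeasure μT]
    [IsProbabilityMeasure μS] (hT : ∀ᵐ t ∂μT, 0 ≤ t) (hS : ∀ᵐ s ∂μS, 0 ≤ s)
    (iT : Integrable (fun t : ℝ => t) μT) (iS : Integrable (fun s : ℝ => s) μS)
    (iT2 : Integrable (fun t : ℝ => t ^ 2) μT) (iS2 : Integrable (fun s : ℝ => s ^ 2) μS)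
    (hρ0 : 0 < (∫ s, s ∂μS) / (k * ∫ t, t ∂μT)) (hρ1 : (∫ s, s ∂μS) / (k * ∫ t, t ∂μT) < 1)
    (π : Measure (Fin k → ℝ)) (hπ : IsStationary k μT μS π) :
    (∀ i : Fin k, Integrable (fun w : Fin k → ℝ => w i) π) ∧
      ∀ (i : ℕ) (h : i + 2 < k),
        2 * ∫ w, w ⟨i + 1, by omega⟩ ∂π ≤
          ∫ w, w ⟨i, by omega⟩ ∂π + ∫ w, w ⟨i + 2, h⟩ ∂π := by
  obtain ⟨m, rfl⟩ : ∃ m, k = m + 1 := ⟨k - 1, by omega⟩
  have hETnn : 0 ≤ ∫ t, t ∂μT := integral_nonneg_of_ae hT
  have hET : ∫ t, t ∂μT ≠ 0 := by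
    intro h
    rw [h] at hρ0
    simp at hρ0
  have hETpos : 0 < ∫ t, t ∂μT := lt_of_le_of_ne hETnn (Ne.symm hET)
  have hρ : ∫ s, s ∂μS < (m + 1) * ∫ t, t ∂μT := by
    rw [div_lt_one (by positivity)] at hρ1
    push_cast at hρ1
    exact hρ1
  have hint := coord_integrable hπ hS iS iT iS2 iT2 hρ
  refine ⟨hint, ?_⟩
  intro i hi
  have hconv := convex_ennreal hπ hS hT hET i hi
  have conv : ∀ l : Fin (m + 1), ∫⁻ w, ENNReal.ofReal (w l) ∂π = ENNReal.ofReal (∫ w, w l ∂π) := by
    intro l
    rw [ofReal_integral_eq_lintegral_ofReal (hint l)]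
    filter_upwards [hπ.ordered] with w hw
    exact hw.2 l
  have nn : ∀ l : Fin (m + 1), 0 ≤ ∫ w, w l ∂π := by
    intro l
    apply integral_nonneg_of_ae
    filter_upwards [hπ.ordered] with w hw
    exact hw.2 l
  rw [conv, conv, conv, ← ENNReal.ofReal_add (nn _) (nn _)] at hconv
  have h2 : (2 : ℝ≥0∞) = ENNReal.ofReal 2 := by simp
  rw [h2, ← ENNReal.ofReal_mul (by norm_num)] at hconv
  exact (ENNReal.ofReal_le_ofReal_iff (add_nonneg (nn _) (nn _))).1 hconv

end Pool.Agent.Results.MP_a2bed5_pr.ConvexWorkloads
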